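import Pool.Agent.H57.MC8000

set_option autoImplicit false

namespace Pool.Agent.Results.MP_2ab2dc_nt.F50

open Pool.Agent.H57.MC

/-- The number of lattice points enclosed by the circle with centre `(1/2, 1/2)` and radius
`√(k ^ 2 + k + 1/2)`. -/
noncomputable def f (k : ℕ) : ℕ :=
  (inside (1 / 2) (1 / 2) (Real.sqrt ((k : ℝ) ^ 2 + k + 1 / 2))).ncard

theorem result : ¬ IsMC (f 50) := by
  have hiff : ∀ p : ℤ × ℤ, p ∈ inside (1 / 2) (1 / 2) (Real.sqrt (((50 : ℕ) : ℝ) ^ 2 + (50 : ℕ) + 1 / 2))
      ↔ nrm 2 1 1 p < 10202 := by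
    intro p
    simp only [inside, Set.mem_ofPred_eq, nrm]
    rw [Real.sq_sqrt (by positivity), ← Int.cast_lt (R := ℝ)]
    push_cast
    constructor <;> intro h <;> linarith
  have h : f 50 = 8000 := by
    unfold f
    rw [ncard_eq_countP 52 (fun p => decide (nrm 2 1 1 p < 10202)) _ ?_ ?_]
    · decide +kernel
    · intro p
      rw [hiff, decide_eq_true_eq]
    · intro p hp
      exact box_of_nrm 2 1 1 10202 52 (by decide) (by decide) (by decide) (by decide) (by decide)
        (by decide) (by decide) p ((hiff p).1 hp).le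
  rw [h]
  exact MC8000.nonMC

end Pool.Agent.Results.MP_2ab2dc_nt.F50
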